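import Pool.Agent.CS659.FinM

/-!
The two-dimensional case of the question: bond percolation on `ℤ²` (critical parameter `1/2`) and
the size of the largest finite cluster which meets the box `[-b, b]²`, uniformly near the critical
point. With `u = b * |p - 1/2| ^ (4/3)` (the size of the box in units of the correlation length)
this size is of order `|p - 1/2| ^ (-91/36) * (log u) ^ 2` above the critical point, and of order
`|p - 1/2| ^ (-91/36) * log u` below it, with probability at least `1 - C / u`.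
The first order interpolates between `(log V) ^ 2` (`V = b²`, `p` fixed) and the critical order
`b ^ (91/48)` (`u` bounded).
-/

namespace Pool.Agent.Results.MP_81a99a_pr.PlanarCase

open MeasureTheory

/-- The square lattice: two points of `ℤ²` are adjacent when they differ by one in exactly one
coordinate. -/
def Z2 : SimpleGraph (ℤ × ℤ) where
  Adj u v := |u.1 - v.1| + |u.2 - v.2| = 1
  symm := ⟨fun u v h => by rw [abs_sub_comm v.1, abs_sub_comm v.2]; exact h⟩
  loopless := ⟨fun u h => by simp at h⟩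

/-- Bond percolation: every edge of the square lattice is open (`true`) with probability `p`,
independently of the other edges. -/
noncomputable def perc (p : unitInterval) : Measure (Z2.edgeSet → Bool) :=
  Measure.infinitePi (fun _ => ProbabilityTheory.bernoulliMeasure true false p)

/-- The graph of the open edges. -/
def openGraph (ω : Z2.edgeSet → Bool) : SimpleGraph (ℤ × ℤ) :=
  SimpleGraph.fromEdgeSet {e | ∃ h : e ∈ Z2.edgeSet, ω ⟨e, h⟩ = true}

/-- The open cluster of the vertex `x`. -/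
def cluster (ω : Z2.edgeSet → Bool) (x : ℤ × ℤ) : Set (ℤ × ℤ) :=
  {v | (openGraph ω).Reachable x v}

/-- The probability that some vertex of the box `[-b, b]²` belongs to a finite cluster with at
least `m` vertices. -/
noncomputable def big (p : unitInterval) (b m : ℕ) : ℝ :=
  (perc p).real {ω | ∃ x : ℤ × ℤ, |x.1| ≤ b ∧ |x.2| ≤ b ∧
    (cluster ω x).Finite ∧ (m : ℕ∞) ≤ (cluster ω x).encard}

/-- The size of the box, in units of the correlation length `|p - 1/2| ^ (-4/3)`. -/
noncomputable def boxScale (p : unitInterval) (b : ℕ) : ℝ := b * |(p : ℝ) - 1 / 2| ^ (4 / 3 : ℝ)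

/-- The size of the cluster, in units of `|p - 1/2| ^ (-91/36)`. -/
noncomputable def sizeScale (p : unitInterval) (m : ℕ) : ℝ :=
  m * |(p : ℝ) - 1 / 2| ^ (91 / 36 : ℝ)

theorem big_eq (p : unitInterval) (b m : ℕ) :
    big p b m = (H974.bondLaw p).real {ω | ∃ x ∈ Pool.Agent.H160R2.CV.bx b, CS659.FB m ω x} := by
  have h : {ω : H974.sqLattice.edgeSet → Bool | ∃ x : ℤ × ℤ, |x.1| ≤ b ∧ |x.2| ≤ b ∧
      (CS659.cl ω x).Finite ∧ (m : ℕ∞) ≤ (CS659.cl ω x).encard} =
      {ω | ∃ x ∈ Pool.Agent.H160R2.CV.bx b, CS659.FB m ω x} := by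
    ext ω
    constructor
    · rintro ⟨x, h1, h2, h3, h4⟩
      refine ⟨x, ?_, h4, h3⟩
      rw [CS659.mem_bx]
      rw [abs_le] at h1 h2
      unfold H974.inR
      omega
    · rintro ⟨x, h1, h4, h3⟩
      rw [CS659.mem_bx] at h1
      unfold H974.inR at h1
      refine ⟨x, ?_, ?_, h3, h4⟩
      · rw [abs_le]; omega
      · rw [abs_le]; omega
  rw [← h]
  rfl

/-- **The largest finite cluster of a box, near the critical point.** -/
theorem result : ∃ c C : ℝ, 0 < c ∧ 0 < C ∧
    (∀ p : unitInterval, (p : ℝ) < 1 / 2 → ∀ b m : ℕ, 1 ≤ m → 3 ≤ boxScale p b →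
      (C * Real.log (boxScale p b) ≤ sizeScale p m → big p b m ≤ C / boxScale p b) ∧
      (1 / 4 ≤ (p : ℝ) → sizeScale p m ≤ c * Real.log (boxScale p b) →
        1 - C / boxScale p b ≤ big p b m)) ∧
    (∀ p : unitInterval, 1 / 2 < (p : ℝ) → ∀ b m : ℕ, 1 ≤ m → 3 ≤ boxScale p b →
      (C * Real.log (boxScale p b) ^ 2 ≤ sizeScale p m → big p b m ≤ C / boxScale p b) ∧
      ((p : ℝ) ≤ 3 / 4 → sizeScale p m ≤ c * Real.log (boxScale p b) ^ 2 →
        1 - C / boxScale p b ≤ big p b m)) := by
  obtain ⟨K1, C1, hK1, hC1, h1⟩ := CS659.fin_up_lo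
  obtain ⟨c2, C2, hc2, hC2, h2⟩ := CS659.fin_lo_lo
  obtain ⟨K3, C3, hK3, hC3, h3⟩ := CS659.fin_up_hi
  obtain ⟨c4, C4, hc4, hC4, h4⟩ := CS659.fin_lo_hi
  obtain ⟨c, hc⟩ : ∃ c : ℝ, c = min c2 c4 := ⟨_, rfl⟩
  obtain ⟨C, hC⟩ : ∃ C : ℝ, C = K1 + C1 + C2 + K3 + C3 + C4 := ⟨_, rfl⟩
  have hc0 : 0 < c := by rw [hc]; exact lt_min hc2 hc4
  have a2 : c ≤ c2 := by rw [hc]; exact min_le_left _ _
  have a4 : c ≤ c4 := by rw [hc]; exact min_le_right _ _
  have hC0 : 0 < C := by rw [hC]; positivity
  have up : ∀ {A w : ℝ}, A ≤ C → 0 < w → A / w ≤ C / w := fun h hw =>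
    div_le_div_of_nonneg_right h hw.le
  refine ⟨c, C, hc0, hC0, ?_, ?_⟩
  · intro p hp b m hm hu
    have hΛ := CS659.one_le_log hu
    have hu0 : 0 < boxScale p b := by linarith
    rw [big_eq]
    refine ⟨?_, ?_⟩
    · intro hv
      refine (h1 p hp b m _ hm rfl hu ?_).trans (up (by rw [hC]; linarith) hu0)
      refine le_trans ?_ hv
      exact mul_le_mul_of_nonneg_right (by rw [hC]; linarith) (zero_le_one.trans hΛ)
    · intro hp1 hv
      have h5 := h2 p hp1 hp b m _ rfl hu (hv.trans
        (mul_le_mul_of_nonneg_right a2 (zero_le_one.trans hΛ)))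
      have h6 : C2 / boxScale p b ≤ C / boxScale p b := up (by rw [hC]; linarith) hu0
      have h7 : 1 - C / boxScale p b ≤ 1 - C2 / boxScale p b := by linarith
      exact h7.trans h5
  · intro p hp b m hm hu
    have hΛ := CS659.one_le_log hu
    have hu0 : 0 < boxScale p b := by linarith
    rw [big_eq]
    refine ⟨?_, ?_⟩
    · intro hv
      refine (h3 p hp b m _ hm rfl hu ?_).trans (up (by rw [hC]; linarith) hu0)
      refine le_trans ?_ hv
      exact mul_le_mul_of_nonneg_right (by rw [hC]; linarith) (by positivity)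
    · intro hp1 hv
      have h5 := h4 p hp hp1 b m _ hm rfl hu (hv.trans
        (mul_le_mul_of_nonneg_right a4 (by positivity)))
      have h6 : C4 / boxScale p b ≤ C / boxScale p b := up (by rw [hC]; linarith) hu0
      have h7 : 1 - C / boxScale p b ≤ 1 - C4 / boxScale p b := by linarith
      exact h7.trans h5

end Pool.Agent.Results.MP_81a99a_pr.PlanarCase
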